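import Pool.Agent.V11210.EP.FourMain
import Pool.Agent.V11210.EP.Rat
import Pool.Agent.TH456.TM.Inst

/-!
# `π + e` and `π e` at every scale
-/

set_option autoImplicit false

namespace Pool.Agent.Results.MP_a49cf6_nt.EveryScale

open Polynomial

/-- `α` is an algebraic number of degree at most `d` and height at most `H`: a root of an irreducible
integer polynomial of degree at most `d` with coefficients of absolute value at most `H`. -/
def IsAlg (d : ℕ) (H : ℝ) (α : ℂ) : Prop :=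
  ∃ A : ℤ[X], Irreducible A ∧ A.natDegree ≤ d ∧ (∀ j, |(A.coeff j : ℝ)| ≤ H) ∧ aeval α A = 0

/-- the number `e` -/
noncomputable def e : ℝ := Real.exp 1

lemma alg (x : ℝ) (hx : x = e ∨ x = Real.pi) (P R : ℤ[X]) (hP : P ≠ 0)
    (hR : R.natDegree ≤ P.natDegree) (d : ℕ) (T : ℝ) :
    ∃ κ c : ℝ, 0 < c ∧ ∀ t : ℂ, ‖t‖ ≤ T → ∀ H : ℝ, 1 ≤ H → ∀ α β : ℂ,
      IsAlg d H α → IsAlg d H β →
      c * H ^ (-κ) ≤ ‖t + x - α‖ + ‖t * aeval (x : ℂ) P + aeval (x : ℂ) R - β‖ := by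
  have hm : Pool.Agent.TH456.TM.MeasT (x : ℂ) := by
    rcases hx with rfl | rfl
    · exact Pool.Agent.TH456.TM.measT_e
    · exact Pool.Agent.TH456.TM.measT_pi
  obtain ⟨κ, c, _, hc, h⟩ := Pool.Agent.V11210.EP.pair (x : ℂ) hm P (R - X * P) d
    (|T| + ‖(x : ℂ)‖) (by positivity)
  refine ⟨κ, c, hc, fun t ht H hH α β hα hβ => ?_⟩
  obtain ⟨A, hA, hAd, hAH, hα⟩ := hα
  obtain ⟨B, hB, hBd, hBH, hβ⟩ := hβ
  have h1 := h (t + x) (t * aeval (x : ℂ) P + aeval (x : ℂ) R)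
    ((norm_add_le _ _).trans (by linarith [le_abs_self T])) (by
      simp only [map_sub, map_mul, aeval_X]
      ring) A B hA.ne_zero hB.ne_zero hAd hBd H hH hAH hBH (fun γ _ => by
      have h2 : (C γ * P.map (Int.castRingHom ℂ) + (R - X * P).map (Int.castRingHom ℂ) : ℂ[X]).coeff
          (P.natDegree + 1) ≠ 0 := by
        have h3 : P.coeff (P.natDegree + 1) = 0 :=
          coeff_eq_zero_of_natDegree_lt (Nat.lt_succ_self _)
        have h4 : R.coeff (P.natDegree + 1) = 0 := coeff_eq_zero_of_natDegree_lt (by omega)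
        rw [coeff_add, coeff_C_mul, coeff_map, coeff_map, h3, coeff_sub, h4, coeff_X_mul]
        simp only [map_zero, mul_zero, zero_sub, map_neg, zero_add, neg_ne_zero, eq_intCast]
        exact_mod_cast leadingCoeff_ne_zero.2 hP
      exact (Nat.le_add_left 1 _).trans (le_natDegree_of_ne_zero h2)) α β hα hβ
  have hH0 : 0 < H := by linarith
  rw [Real.rpow_neg hH0.le, ← div_eq_mul_inv, div_le_iff₀ (by positivity), mul_comm]
  exact h1

open Pool.Agent.V11210.EP in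
lemma explicit (T η : ℝ) (hη : 0 < η) : ∃ c : ℝ, 0 < c ∧ ∀ t : ℝ, |t| ≤ T →
    ∀ (p r : ℤ) (q s : ℕ), 0 < q → 0 < s →
      c * ((q : ℝ) * s) ^ (-(3 + η)) ≤ |t + e - (p : ℝ) / q| + |t * e - (r : ℝ) / s| := by
  have he0 : 0 < e := Real.exp_pos 1
  obtain ⟨c, hc, h⟩ := r02 ((|T| + 1) * (e + 1)) η (by positivity) hη
  refine ⟨c, hc, fun t ht p r q s hq hs => h t ?_ ?_ p r q s hq hs⟩
  · refine (abs_add_le _ _).trans ?_
    rw [abs_of_pos (Real.exp_pos 1)]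
    have h7 : Real.exp 1 = e := rfl
    rw [h7]
    nlinarith [le_abs_self T, abs_nonneg T]
  · rw [abs_mul, abs_of_pos (Real.exp_pos 1)]
    have h7 : Real.exp 1 = e := rfl
    rw [h7]
    have h8 := le_abs_self T
    have h9 : |t| * e ≤ |T| * e := mul_le_mul_of_nonneg_right (ht.trans h8) he0.le
    nlinarith [abs_nonneg T]

/-- **`π + e` and `π e` at every scale.**  (1) Let `x = e` or `x = π`, and let `P ≠ 0` and `R` be
integer polynomials, `deg R ≤ deg P`. For every `d` and `T` there are `κ`, `c > 0` such that for all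
complex `t` with `‖t‖ ≤ T`, all `H ≥ 1` and all algebraic numbers `α`, `β` of degree at most `d` and
height at most `H` the sum of the distances from `t + x` to `α` and from `t P(x) + R(x)` to `β` is at
least `c H ^ (-κ)`. (2) The pairs `π + e`, `π e`; `π + e`, `π P(e) + R(e)`; `π + e`, `e P(π) + R(π)`.
(3) Rational numbers and `t + e`, `t e`, with an explicit exponent. (4) At every scale `Q` one of
`t + e`, `t e` has no rational approximation with denominator at most `Q` and error less than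
`c Q ^ (-(6 + η))`. -/
theorem result :
    (∀ x : ℝ, (x = e ∨ x = Real.pi) → ∀ P R : ℤ[X], P ≠ 0 → R.natDegree ≤ P.natDegree →
      ∀ (d : ℕ) (T : ℝ), ∃ κ c : ℝ, 0 < c ∧ ∀ t : ℂ, ‖t‖ ≤ T → ∀ H : ℝ, 1 ≤ H → ∀ α β : ℂ,
        IsAlg d H α → IsAlg d H β →
        c * H ^ (-κ) ≤ ‖t + x - α‖ + ‖t * aeval (x : ℂ) P + aeval (x : ℂ) R - β‖) ∧
    (∀ P R : ℤ[X], P ≠ 0 → R.natDegree ≤ P.natDegree → ∀ d : ℕ, ∃ κ c : ℝ, 0 < c ∧
      ∀ H : ℝ, 1 ≤ H → ∀ α β : ℂ, IsAlg d H α → IsAlg d H β →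
        c * H ^ (-κ) ≤ ‖(Real.pi : ℂ) + e - α‖ + ‖(Real.pi : ℂ) * e - β‖ ∧
        c * H ^ (-κ) ≤ ‖(Real.pi : ℂ) + e - α‖ +
          ‖(Real.pi : ℂ) * aeval (e : ℂ) P + aeval (e : ℂ) R - β‖ ∧
        c * H ^ (-κ) ≤ ‖(Real.pi : ℂ) + e - α‖ +
          ‖(e : ℂ) * aeval (Real.pi : ℂ) P + aeval (Real.pi : ℂ) R - β‖) ∧
    (∀ T η : ℝ, 0 < η → ∃ c : ℝ, 0 < c ∧ ∀ t : ℝ, |t| ≤ T → ∀ (p r : ℤ) (q s : ℕ), 0 < q → 0 < s →
      c * ((q : ℝ) * s) ^ (-(3 + η)) ≤ |t + e - (p : ℝ) / q| + |t * e - (r : ℝ) / s|) ∧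
    (∀ T η : ℝ, 0 < η → ∃ c : ℝ, 0 < c ∧ ∀ t : ℝ, |t| ≤ T → ∀ Q : ℝ, 1 ≤ Q →
      (∀ (p : ℤ) (q : ℕ), 0 < q → (q : ℝ) ≤ Q → c * Q ^ (-(6 + η)) ≤ |t + e - (p : ℝ) / q|) ∨
      (∀ (p : ℤ) (q : ℕ), 0 < q → (q : ℝ) ≤ Q → c * Q ^ (-(6 + η)) ≤ |t * e - (p : ℝ) / q|)) := by
  refine ⟨alg, fun P R hP hR d => ?_, explicit, fun T η hη => ?_⟩
  · obtain ⟨κ1, c1, hc1, h1⟩ := alg e (Or.inl rfl) X 0 X_ne_zero (by simp) d Real.pi
    obtain ⟨κ2, c2, hc2, h2⟩ := alg e (Or.inl rfl) P R hP hR d Real.pi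
    obtain ⟨κ3, c3, hc3, h3⟩ := alg Real.pi (Or.inr rfl) P R hP hR d e
    have hπ : ‖(Real.pi : ℂ)‖ ≤ Real.pi := by
      rw [Complex.norm_real, Real.norm_eq_abs, abs_of_pos Real.pi_pos]
    have he0 : 0 < e := Real.exp_pos 1
    have he : ‖(e : ℂ)‖ ≤ e := by
      rw [Complex.norm_real, Real.norm_eq_abs, abs_of_pos he0]
    refine ⟨max κ1 (max κ2 κ3), min c1 (min c2 c3), lt_min hc1 (lt_min hc2 hc3),
      fun H hH α β hα hβ => ?_⟩
    have hH0 : 0 < H := by linarith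
    have hm1 : H ^ (-(max κ1 (max κ2 κ3))) ≤ H ^ (-κ1) :=
      Real.rpow_le_rpow_of_exponent_le hH (neg_le_neg (le_max_left _ _))
    have hm2 : H ^ (-(max κ1 (max κ2 κ3))) ≤ H ^ (-κ2) :=
      Real.rpow_le_rpow_of_exponent_le hH
        (neg_le_neg ((le_max_left _ _).trans (le_max_right _ _)))
    have hm3 : H ^ (-(max κ1 (max κ2 κ3))) ≤ H ^ (-κ3) :=
      Real.rpow_le_rpow_of_exponent_le hH
        (neg_le_neg ((le_max_right _ _).trans (le_max_right _ _)))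
    refine ⟨?_, ?_, ?_⟩
    · have h := h1 (Real.pi : ℂ) hπ H hH α β hα hβ
      rw [aeval_X, map_zero, add_zero] at h
      refine le_trans ?_ h
      gcongr
      exact min_le_left _ _
    · refine le_trans ?_ (h2 (Real.pi : ℂ) hπ H hH α β hα hβ)
      gcongr
      exact (min_le_right _ _).trans (min_le_left _ _)
    · have h := h3 (e : ℂ) he H hH α β hα hβ
      rw [add_comm (e : ℂ)] at h
      refine le_trans ?_ h
      gcongr
      exact (min_le_right _ _).trans (min_le_right _ _)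
  · obtain ⟨c, hc, h⟩ := explicit T (η / 2) (by positivity)
    refine ⟨c / 2, by positivity, fun t ht Q hQ => ?_⟩
    by_contra hcon
    push Not at hcon
    obtain ⟨⟨p, q, hq, hqQ, h1⟩, r, s, hs, hsQ, h2⟩ := hcon
    have hq0 : (0 : ℝ) < q := by exact_mod_cast hq
    have hs0 : (0 : ℝ) < s := by exact_mod_cast hs
    have hQ0 : 0 < Q := by linarith
    have h3 := h t ht p r q s hq hs
    have h4 : (Q * Q) ^ (-(3 + η / 2)) ≤ ((q : ℝ) * s) ^ (-(3 + η / 2)) :=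
      Real.rpow_le_rpow_of_nonpos (by positivity) (by gcongr) (by linarith)
    have h5 : (Q * Q) ^ (-(3 + η / 2)) = Q ^ (-(6 + η)) := by
      rw [Real.mul_rpow hQ0.le hQ0.le, ← Real.rpow_add hQ0]
      congr 1
      ring
    rw [h5] at h4
    have h6 : c * Q ^ (-(6 + η)) ≤ c * ((q : ℝ) * s) ^ (-(3 + η / 2)) := by gcongr
    linarith

end Pool.Agent.Results.MP_a49cf6_nt.EveryScale
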