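import Pool.Agent.V11252.NP.Exc
import Pool.Agent.Results.MP_a49cf6_nt.ThreeTranscendental

set_option autoImplicit false

/-!
# MP_a49cf6_nt: the two exceptional cases for `π + e`, `π e`, `π ^ e`, `e ^ e`, `π ^ π`

`LogForms` is the space of all linear combinations, with algebraic coefficients, of `1` and of
logarithms of algebraic numbers; `InP t` says that `t > 0` and `log t ∈ LogForms`, i.e.
`t = e ^ γ α₁ ^ β₁ ⋯ αₖ ^ βₖ` with algebraic `γ`, `αᵢ`, `βᵢ`.  A positive number without this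
property is transcendental.

At least three of the five numbers are transcendental, with two possible exceptions (starting
result `ThreeTranscendental`).  We show that each of the exceptions would have strong consequences.
-/

namespace Pool.Agent.Results.MP_a49cf6_nt.ExceptionalCases

open Real

/-- The linear combinations, with algebraic coefficients, of `1` and of logarithms of algebraic
numbers. -/
noncomputable def LogForms : Submodule (algebraicClosure ℚ ℂ) ℂ :=
  Submodule.span (algebraicClosure ℚ ℂ) ({1} ∪ {z : ℂ | IsAlgebraic ℚ (Complex.exp z)})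

/-- `t > 0` and `log t` is in `LogForms`. -/
def InP (t : ℝ) : Prop := 0 < t ∧ ((Real.log t : ℝ) : ℂ) ∈ LogForms

/-- Multiplicative independence. -/
def MInd {r : ℕ} (α : Fin r → ℝ) : Prop := ∀ k : Fin r → ℤ, ∏ i, α i ^ k i = 1 → k = 0

/-- The first exception: exactly `π ^ e`, `e ^ e`, `π ^ π` are algebraic. -/
structure FirstException : Prop where
  sum : Transcendental ℚ (π + exp 1)
  prod : Transcendental ℚ (π * exp 1)
  pi_e : IsAlgebraic ℚ (π ^ exp 1)
  e_e : IsAlgebraic ℚ (exp 1 ^ exp 1)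
  pi_pi : IsAlgebraic ℚ (π ^ π)
  /-- `π` does not have the property -/
  not_pi : ¬ InP π
  /-- nor do `e ^ (π / e)`, `e ^ (e / π)`, `e ^ (1 / log π)` -/
  not_quotients : ¬ InP (exp (π / exp 1)) ∧ ¬ InP (exp (exp 1 / π)) ∧ ¬ InP (exp (1 / log π))
  /-- nor does `t ^ log π` for positive algebraic `t` which are multiplicatively independent of
  `e ^ e` -/
  not_pow : ∀ t : ℝ, 0 < t → IsAlgebraic ℚ t → MInd ![exp (exp 1), t] → ¬ InP (t ^ log π)
  /-- nor does one of `e ^ (π²)`, `e ^ (π e)` -/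
  not_both : ¬ InP (exp (π ^ 2)) ∨ ¬ InP (exp (π * exp 1))
  /-- nor does one of `t ^ e`, `t ^ π` for every positive algebraic `t ≠ 1` -/
  not_both_pow : ∀ t : ℝ, 0 < t → IsAlgebraic ℚ t → t ≠ 1 → ¬ InP (t ^ exp 1) ∨ ¬ InP (t ^ π)

/-- The second exception: exactly `π + e`, `π ^ e`, `π ^ π` are algebraic. -/
structure SecondException : Prop where
  sum : IsAlgebraic ℚ (π + exp 1)
  irrational : Irrational (π + exp 1)
  prod : Transcendental ℚ (π * exp 1)
  pi_e : IsAlgebraic ℚ (π ^ exp 1)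
  e_e : Transcendental ℚ (exp 1 ^ exp 1)
  pi_pi : IsAlgebraic ℚ (π ^ π)
  /-- `π` has the property -/
  pi : InP π
  /-- `e ^ (π²)`, `e ^ (π e)`, `e ^ (e²)`, `π ^ log π` do not have the property -/
  not_squares : ¬ InP (exp (π ^ 2)) ∧ ¬ InP (exp (π * exp 1)) ∧ ¬ InP (exp (exp 1 ^ 2)) ∧
    ¬ InP (π ^ log π)
  /-- for every positive algebraic `t ≠ 1`, the numbers `t ^ e` and `t ^ π` are transcendental, and
  `t ^ log π` does not have the property -/
  pow : ∀ t : ℝ, 0 < t → IsAlgebraic ℚ t → t ≠ 1 →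
    Transcendental ℚ (t ^ exp 1) ∧ Transcendental ℚ (t ^ π) ∧ ¬ InP (t ^ log π)

/-- **Main result.**  At least three of the five numbers are transcendental, or one of the two
exceptions takes place, with all its consequences listed above. -/
theorem result :
    (∃ s : Finset (Fin 5), s.card = 3 ∧ ∀ i ∈ s, Transcendental ℚ ((![π + exp 1,
      π * exp 1, π ^ exp 1, exp 1 ^ exp 1, π ^ π] : Fin 5 → ℝ) i)) ∨
    FirstException ∨ SecondException := by
  have e1 : π ^ π = exp (π * Pool.Agent.H301R2.Nine.L) := by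
    rw [Real.rpow_def_of_pos Real.pi_pos, mul_comm]
    rfl
  have e2 : π ^ exp 1 = exp (exp 1 * Pool.Agent.H301R2.Nine.L) := by
    rw [Real.rpow_def_of_pos Real.pi_pos, mul_comm]
    rfl
  rcases Pool.Agent.Results.MP_a49cf6_nt.ThreeTranscendental.result with
    h | ⟨ha, hb, hc, hd, hf⟩ | ⟨ha, hb, hc, hd, hf⟩
  · exact Or.inl h
  · refine Or.inr (Or.inl ?_)
    have hC : IsAlgebraic ℚ (exp (exp 1)) := by
      rw [Real.exp_one_rpow] at hd
      exact hd
    have hD := hc
    rw [e2] at hD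
    have hB := hf
    rw [e1] at hB
    refine ⟨ha, hb, hc, hd, hf, Pool.Agent.V11252.NP.A_pi hC hD hB,
      ⟨Pool.Agent.V11252.NP.A_pie hC hD hB, Pool.Agent.V11252.NP.A_epi hC hD hB,
        Pool.Agent.V11252.NP.A_inv hC hD hB⟩,
      fun t ht hta hi => Pool.Agent.V11252.NP.A_pow hC hD hB ht hta hi, ?_, ?_⟩
    · by_contra hcon
      push Not at hcon
      exact Pool.Agent.V11252.NP.x5_8_9 hC hcon.1 hcon.2
    · intro t ht hta ht1
      by_contra hcon
      push Not at hcon
      exact Pool.Agent.V11252.NP.x5_11_12 ht hta ht1 hC hcon.1 hcon.2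
  · refine Or.inr (Or.inr ?_)
    have hD := hc
    rw [e2] at hD
    have hB := hf
    rw [e1] at hB
    have R := Pool.Agent.V11252.NP.rel_add ha
    have h1 := Pool.Agent.V11252.NP.B_sq ha hD hB
    have h2 : ¬ Pool.Agent.V11252.NP.InP (exp (exp 1 ^ 2)) := fun h => h1 (R.sq_iff.1.1 h)
    exact ⟨ha, Pool.Agent.V11252.NP.B_irr ha hD hB, hb, hc, hd, hf,
      Pool.Agent.V11252.NP.B_piP ha hD hB,
      ⟨h1, fun h => h2 (R.sq_iff.2.2 h), h2, Pool.Agent.V11252.NP.B_pipi ha hD hB⟩,
      fun t ht hta ht1 => ⟨(Pool.Agent.V11252.NP.B_tr ha hD hB ht hta ht1).2,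
        (Pool.Agent.V11252.NP.B_tr ha hD hB ht hta ht1).1,
        Pool.Agent.V11252.NP.B_pow ha hD hB ht hta ht1⟩⟩

end Pool.Agent.Results.MP_a49cf6_nt.ExceptionalCases
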