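import Mathlib
import Pool.Agent.V1139.NA.AlgRing
import Pool.Agent.TH456.TM.E

/-!
# Which polynomials in `e`, `π` and arbitrary numbers can be near algebraic numbers at one height

Let `x = e` or `x = π`, and let `t_1, …, t_r` be arbitrary complex numbers (for instance the other one
of the two numbers, `π^e`, `e^e`, `π^π`).

(1) At every height `H` there is one point `(X, y_1, …, y_r)` of algebraic functions such that
    `m(P(X, y)) = 0` for ALL integer polynomials `P` of degree at most `D` and height at most `H` for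
    which `P(x, t)` has a distance less than `c H ^ (-κ)` from a zero of some integer polynomial `m`
    of degree at most `d` and height at most `H`.
(2) In particular the `ℚ`-algebra which is generated by all these `P` (for arbitrary numbers
    `λ_1, …, λ_n`) contains no nonconstant polynomial in `X_i` if `λ_i` is `e` or `π`.
(3) The case of the numbers `e, π, π^e, e^e, π^π`.
(4) At every height `H` all the polynomials `a Y + R(X)`, `a ≠ 0`, `R(0) = 0`, of height at most `H`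
    whose value at `(x, t)` is so near to an algebraic number have the same quotient `R / a`: there is
    at most one `ρ ∈ X ℚ[X]` such that `t + ρ(x)` is nearly algebraic.
-/

set_option autoImplicit false

namespace Pool.Agent.Results.MP_a49cf6_nt.NearlyAlgebraicPolynomials

open Polynomial

/-- the field of the algebraic functions of one variable `X` (over the rational numbers) -/
abbrev AlgFun : Type := AlgebraicClosure (FractionRing ℤ[X])

/-- a polynomial in `X` as an algebraic function -/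
noncomputable def fn : ℤ[X] →+* AlgFun :=
  (algebraMap (FractionRing ℤ[X]) AlgFun).comp (algebraMap ℤ[X] (FractionRing ℤ[X]))

/-- a polynomial `P` in `Y_1, …, Y_r` with coefficients in `ℤ[X]`: total degree in the `Y_i`, and
degree in `X`, at most `D`, all coefficients at most `H` in absolute value -/
def Bounded {r : ℕ} (D : ℕ) (H : ℝ) (P : MvPolynomial (Fin r) ℤ[X]) : Prop :=
  P.totalDegree ≤ D ∧ ∀ m, (P.coeff m).natDegree ≤ D ∧ ∀ i, |((P.coeff m).coeff i : ℝ)| ≤ H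

/-- the complex number `P(x, t_1, …, t_r)` -/
noncomputable def value {r : ℕ} (x : ℂ) (t : Fin r → ℂ) (P : MvPolynomial (Fin r) ℤ[X]) : ℂ :=
  P.eval₂ (aeval x : ℤ[X] →ₐ[ℤ] ℂ).toRingHom t

/-- the algebraic function `P(X, y_1, …, y_r)` -/
noncomputable def onFun {r : ℕ} (y : Fin r → AlgFun) (P : MvPolynomial (Fin r) ℤ[X]) : AlgFun :=
  P.eval₂ fn y

/-- `m` has degree at most `d` and coefficients at most `H` in absolute value, and `m(α) = 0` -/
def Eqn (d : ℕ) (H : ℝ) (m : ℤ[X]) (α : ℂ) : Prop :=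
  m.natDegree ≤ d ∧ (∀ i, |(m.coeff i : ℝ)| ≤ H) ∧ m.eval₂ (Int.castRingHom ℂ) α = 0

/-- `z` has distance less than `ε` from an algebraic number of degree at most `d` and height at most
`H` (a zero of some `m ≠ 0` of degree at most `d` and height at most `H`) -/
def NearlyAlgebraic (d : ℕ) (H ε : ℝ) (z : ℂ) : Prop :=
  ∃ (m : ℤ[X]) (α : ℂ), m ≠ 0 ∧ Eqn d H m α ∧ ‖z - α‖ < ε

/-- all integer polynomials `P` of total degree at most `D` and height at most `H` such that `P(λ)` is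
nearly algebraic -/
def NearSet {n : ℕ} (lam : Fin n → ℂ) (D d : ℕ) (κ c H : ℝ) : Set (MvPolynomial (Fin n) ℤ) :=
  {P | (P.totalDegree ≤ D ∧ ∀ m, |((P.coeff m : ℤ) : ℝ)| ≤ H) ∧
    NearlyAlgebraic d H (c * H ^ (-κ)) (P.eval₂ (Int.castRingHom ℂ) lam)}

/-- the `ℚ`-algebra generated by a set of integer polynomials -/
noncomputable def algebraOf {n : ℕ} (N : Set (MvPolynomial (Fin n) ℤ)) :
    Subalgebra ℚ (MvPolynomial (Fin n) ℚ) :=
  Algebra.adjoin ℚ ((fun P => P.map (Int.castRingHom ℚ)) '' N)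

/-- `e` or `π` -/
def EOrPi (x : ℂ) : Prop := x = ((Real.exp 1 : ℝ) : ℂ) ∨ x = (Real.pi : ℂ)

/-- the numbers `e, π, π^e, e^e, π^π` -/
noncomputable def five : Fin 5 → ℂ :=
  ![((Real.exp 1 : ℝ) : ℂ), (Real.pi : ℂ), ((Real.pi ^ Real.exp 1 : ℝ) : ℂ),
    ((Real.exp 1 ^ Real.exp 1 : ℝ) : ℂ), ((Real.pi ^ Real.pi : ℝ) : ℂ)]

/-- `a t + R(x)` is nearly algebraic, `a ≠ 0`, `R(0) = 0`, `a` and `R` have height at most `H` -/
def NearLinear (x t : ℂ) (D d : ℕ) (κ c H : ℝ) (a : ℤ) (R : ℤ[X]) : Prop :=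
  a ≠ 0 ∧ |(a : ℝ)| ≤ H ∧ R.coeff 0 = 0 ∧ R.natDegree ≤ D ∧ (∀ i, |(R.coeff i : ℝ)| ≤ H) ∧
    NearlyAlgebraic d H (c * H ^ (-κ)) (a * t + aeval x R)

lemma measT (x : ℂ) (hx : EOrPi x) : Pool.Agent.TH456.TM.MeasT x := by
  rcases hx with rfl | rfl
  · exact Pool.Agent.TH456.TM.measT_e
  · exact Pool.Agent.TH456.TM.measT_pi

lemma conv {n : ℕ} (lam : Fin n → ℂ) (D d : ℕ) (κ c H : ℝ) :
    NearSet lam D d κ c H = Pool.Agent.V1139.NA.NearAlg lam D d κ c H := by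
  ext P
  constructor
  · rintro ⟨h1, m, α, h2, ⟨h3, h4, h5⟩, h6⟩
    exact ⟨h1, m, α, h2, h3, h4, h5, h6⟩
  · rintro ⟨h1, m, α, h2, h3, h4, h5, h6⟩
    exact ⟨h1, m, α, h2, ⟨h3, h4, h5⟩, h6⟩

lemma ring {n : ℕ} (lam : Fin n → ℂ) (D d : ℕ) : ∃ κ c : ℝ, 0 < κ ∧ 0 < c ∧ ∀ H : ℝ, 1 ≤ H →
    ∀ i, EOrPi (lam i) → ∀ f : ℚ[X], aeval (MvPolynomial.X i : MvPolynomial (Fin n) ℚ) f ∈
      algebraOf (NearSet lam D d κ c H) → f.natDegree = 0 := by
  classical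
  obtain ⟨κ, c, hκ, hc, h⟩ := Pool.Agent.V1139.NA.near_alg_ring lam
    (Finset.univ.filter fun i => EOrPi (lam i)) (fun i hi => measT _ (Finset.mem_filter.1 hi).2) D d
  refine ⟨κ, c, hκ, hc, fun H hH i hi f hf => ?_⟩
  rw [conv] at hf
  exact h i (Finset.mem_filter.2 ⟨Finset.mem_univ _, hi⟩) H hH f hf

/-- **Polynomials near algebraic numbers.** -/
theorem result :
    -- (1)
    (∀ x : ℂ, EOrPi x → ∀ r D d : ℕ, ∃ κ : ℝ, 0 < κ ∧ ∀ T : ℝ, ∃ c : ℝ, 0 < c ∧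
      ∀ t : Fin r → ℂ, (∀ i, ‖t i‖ ≤ T) → ∀ H : ℝ, 1 ≤ H → ∃ y : Fin r → AlgFun,
        ∀ P : MvPolynomial (Fin r) ℤ[X], Bounded D H P → ∀ (m : ℤ[X]) (α : ℂ), Eqn d H m α →
          ‖value x t P - α‖ < c * H ^ (-κ) → m.eval₂ (Int.castRingHom AlgFun) (onFun y P) = 0) ∧
    -- (2)
    (∀ (n : ℕ) (lam : Fin n → ℂ) (D d : ℕ), ∃ κ c : ℝ, 0 < κ ∧ 0 < c ∧ ∀ H : ℝ, 1 ≤ H →
      ∀ i, EOrPi (lam i) → ∀ f : ℚ[X], aeval (MvPolynomial.X i : MvPolynomial (Fin n) ℚ) f ∈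
        algebraOf (NearSet lam D d κ c H) → f.natDegree = 0) ∧
    -- (3)
    (∀ D d : ℕ, ∃ κ c : ℝ, 0 < κ ∧ 0 < c ∧ ∀ H : ℝ, 1 ≤ H → ∀ i : Fin 5, i = 0 ∨ i = 1 →
      ∀ f : ℚ[X], aeval (MvPolynomial.X i : MvPolynomial (Fin 5) ℚ) f ∈
        algebraOf (NearSet five D d κ c H) → f.natDegree = 0) ∧
    -- (4)
    (∀ x : ℂ, EOrPi x → ∀ D d : ℕ, ∃ κ : ℝ, 0 < κ ∧ ∀ T : ℝ, ∃ c : ℝ, 0 < c ∧
      ∀ t : ℂ, ‖t‖ ≤ T → ∀ H : ℝ, 1 ≤ H → ∀ (a a' : ℤ) (R R' : ℤ[X]),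
        NearLinear x t D d κ c H a R → NearLinear x t D d κ c H a' R' → a' • R = a • R') := by
  refine ⟨fun x hx r D d => ?_, fun n lam D d => ring lam D d, fun D d => ?_, fun x hx D d => ?_⟩
  · obtain ⟨κ, hκ, h⟩ := Pool.Agent.V1139.NA.alg_point' Pool.Agent.V11210.NA.fn
      Pool.Agent.V11210.NA.fn_inj x (measT x hx) r D d 1
    refine ⟨κ, hκ, fun T => ?_⟩
    obtain ⟨c, hc, h⟩ := h T
    refine ⟨c, hc, fun t ht H hH => ?_⟩
    obtain ⟨y, -, hy⟩ := h t ht H hH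
    exact ⟨y, fun P hP m α hm hα => hy P hP m α hm.1 hm.2.1 hm.2.2 hα⟩
  · obtain ⟨κ, c, hκ, hc, h⟩ := ring five D d
    refine ⟨κ, c, hκ, hc, fun H hH i hi f hf => h H hH i ?_ f hf⟩
    rcases hi with rfl | rfl
    · exact Or.inl rfl
    · exact Or.inr rfl
  · obtain ⟨κ, hκ, h⟩ := Pool.Agent.V1139.NA.one_line x (measT x hx) D d
    refine ⟨κ, hκ, fun T => ?_⟩
    obtain ⟨c, hc, h⟩ := h T
    refine ⟨c, hc, fun t ht H hH a a' R R' h1 h2 => ?_⟩
    obtain ⟨b1, b2, b3, b4, b5, m, α, b6, ⟨b7, b8, b9⟩, b10⟩ := h1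
    obtain ⟨c1, c2, c3, c4, c5, m', α', c6, ⟨c7, c8, c9⟩, c10⟩ := h2
    exact h t ht H hH (a, R) ⟨b1, b2, b3, b4, b5, m, α, b6, b7, b8, b9, b10⟩ (a', R')
      ⟨c1, c2, c3, c4, c5, m', α', c6, c7, c8, c9, c10⟩

end Pool.Agent.Results.MP_a49cf6_nt.NearlyAlgebraicPolynomials
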