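import Pool.Agent.Y918.RP.Final

/-!
# Random powers and power towers: `e^{f(e)}`, `e^{f(π)}`, `π^{f(e)}`, `π^{f(π)}` and iterated ones

The numbers `e^e`, `π^e`, `π^π` of the question are of the form `exp (λ f(s))` with `f = X`, `s = e` or
`π` and `λ = 1` or `log π`.  We replace the polynomial `f` by a random one, and show that the numbers
which one gets satisfy no polynomial relation of bounded degree.

**Theorem.**  Let `n`, `D`, `N` be fixed, `k ≥ k₀`, and let `A` be a finite set of rational numbers, for
instance `{0, 1}`.  Let `f_1, …, f_n` be polynomials of degree less than `k` with coefficients in `A`,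
and put

  `T_j = exp (ζ_j + λ_j f_j(s_j))`,   `j = 1, …, n`,

where `s_j` is any transcendental number, `λ_j ≠ 0` and `ζ_j` are any complex numbers, and all three
may depend on `T_0, T_1, …, T_{j-1}` (`T_0` is a given transcendental number).  For instance `s_j` may be
`e` or `π`, or `s_j = T_{j-1}`, which gives iterated exponentials of polynomials such as
`e^{f_1(π)}`, `e^{f_2(e^{f_1(π)})}`, ….  Then for all but `C |A|^(n k - δ k)` of the `|A|^(n k)` systems
of polynomials the numbers `T_1, …, T_n` satisfy no nonzero polynomial relation of degree at most `D` in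
each of them with coefficients in `W`.  Here `W` is
any space of complex numbers of dimension at most `N` over the field of algebraic numbers, for instance
the space generated by the monomials of bounded degree in `e`, `π`, `log π`; and `k₀`, `C` and `δ > 0`
depend only on `n`, `D` and `N`.

For example (constant `ζ_j`, `λ_j`, `s_j`) for almost all systems of polynomials the numbers
`e^{f_1(e)}`, `e^{f_2(π)}`, `π^{f_3(e)}`, `π^{f_4(π)}` satisfy no relation of degree at most `D` in each of
them whose coefficients are polynomials of degree at most `D` in `e`, `π` and `log π`; in particular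
`e^{f(e)}`, `e^{f(π)}`, `π^{f(e)}`, `π^{f(π)}`, their sums, products and so on are transcendental for almost
all `f`.  (For one number `exp (λ f(s))` and relations between it and `s` only, the result `Families`
gives a smaller exceptional set.)

The proof.  The powers of a transcendental number `s` are linearly independent over the algebraic
numbers, and the six exponentials theorem shows that the rational vectors `(a_i)` for which
`exp (λ ∑ a_i s^i)` is algebraic form a space of dimension at most about `k / 2`.  So random directions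
are independent up to an exponentially small probability, a cube with independent directions contains a
good point, and an iterated Cauchy–Schwarz inequality shows that a set without such cubes is
exponentially small (`Pool/Agent/Y918/RP`).
-/

set_option autoImplicit false

namespace Pool.Agent.Results.MP_a49cf6_nt.RandomPowers

/-- The numbers `T_1, …, T_n` satisfy a nonzero polynomial relation with coefficients in `W` of degree
at most `D` in each of them. -/
def Relation (W : Submodule (algebraicClosure ℚ ℂ) ℂ) (D n : ℕ) (T : ℕ → ℂ) : Prop :=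
  ∃ p : MvPolynomial (Fin n) ℂ, p ≠ 0 ∧ (∀ m, p.coeff m ∈ W) ∧ (∀ i, p.degreeOf i ≤ D) ∧
    MvPolynomial.eval (fun i : Fin n => T (i + 1)) p = 0

/-- The numbers `T_0, …, T_m`, followed by zeros. -/
def upTo (T : ℕ → ℂ) (m : ℕ) : ℕ → ℂ := fun i => if i ≤ m then T i else 0

/-- `T_0 = t` and `T_(j+1) = exp (ζ_j + λ_j f_j(s_j))` for `j < n`, where `f_j = ∑_i P_{j,i} X^i` and the
numbers `ζ_j`, `λ_j`, `s_j` are the values of the functions `shift j`, `scale j`, `base j` at the vector
`(T_0, …, T_j)`. -/
def IsTower {n k : ℕ} (t : ℂ) (shift scale base : Fin n → (ℕ → ℂ) → ℂ) (P : Fin n → Fin k → ℚ)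
    (T : ℕ → ℂ) : Prop :=
  T 0 = t ∧ ∀ j : Fin n, T (j + 1) = Complex.exp (shift j (upTo T j) +
    scale j (upTo T j) * ∑ i : Fin k, (P j i : ℂ) * base j (upTo T j) ^ (i : ℕ))

open Classical in
/-- **Random power towers.** -/
theorem result (n D N : ℕ) : ∃ (k₀ C : ℕ) (δ : ℝ), 0 < δ ∧ ∀ k ≥ k₀,
    ∀ (t : ℂ) (shift scale base : Fin n → (ℕ → ℂ) → ℂ), Transcendental ℚ t →
    (∀ (j : Fin n) (h : ℕ → ℂ), (∀ i ≤ (j : ℕ), Transcendental ℚ (h i)) →
      Transcendental ℚ (base j h) ∧ scale j h ≠ 0) →
    ∀ A : Finset ℚ, A.Nonempty →
    ∀ W : Submodule (algebraicClosure ℚ ℂ) ℂ, Module.Finite (algebraicClosure ℚ ℂ) W →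
    Module.finrank (algebraicClosure ℚ ℂ) W ≤ N →
    (((Fintype.piFinset fun _ : Fin n => Fintype.piFinset fun _ : Fin k => A).filter
      (fun P : Fin n → Fin k → ℚ => ∃ T : ℕ → ℂ, IsTower t shift scale base P T ∧
        Relation W D n T)).card : ℝ) ≤
      C * (A.card : ℝ) ^ ((n * k : ℝ) - δ * k) := by
  obtain ⟨k₀, C, δ, hδ, _, h⟩ := Pool.Agent.Y918.RP.towersF D n N
  refine ⟨k₀, C, δ, hδ, fun k hk t shift scale base ht hbase A hA W hW hWN => ?_⟩
  have h1 := h k hk A hA W hW hWN t ht (fun j h p => Complex.exp (shift j h +
    scale j h * ∑ i : Fin k, (p i : ℂ) * base j h ^ (i : ℕ)))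
    (fun j h hh => Pool.Agent.Y918.RP.fine_pow (hbase j h hh).1 (hbase j h hh).2 (shift j h))
  refine le_trans (Nat.cast_le.2 (Finset.card_le_card ?_)) h1
  intro P hP
  rw [Finset.mem_filter] at hP ⊢
  obtain ⟨hPA, T, ⟨hT0, hT⟩, hR⟩ := hP
  exact ⟨hPA, T, hT0, hT, hR⟩

end Pool.Agent.Results.MP_a49cf6_nt.RandomPowers
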